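import Pool.Agent.MP_8d06cc_nt.AB.Spec

/-! Block HGT: the rescaled height on the ultrapower. -/

set_option autoImplicit false

namespace Pool.Agent.MP_8d06cc_nt.AB

open Filter Topology Height NumberField Height.AdmissibleAbsValues
open MP_216eb3_nt.H66

noncomputable section

namespace Hgx

section general

variable {K : Type} [Field K]

theorem loc_mono (v : AbsoluteValue K ℝ) {n : ℕ} (S : Finset (Fin n →₀ ℕ)) (c : S → K)
    (d : Fin n → ℕ) (hd : ∀ m ∈ S, ∀ i, m i ≤ d i) (s : Fin n → K) (m : S) :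
    v (c m * ∏ i, s i ^ m.1 i) ≤ (∏ m, max (v (c m)) 1) * ∏ i, max (v (s i ^ d i)) 1 := by
  rw [map_mul, map_prod]
  refine mul_le_mul (Finset.le_prod_max_one (Finset.mem_univ m) fun m => v (c m))
    (Finset.prod_le_prod (fun _ _ => v.nonneg _) fun i _ => ?_)
    (Finset.prod_nonneg fun _ _ => v.nonneg _) (by positivity)
  rw [map_pow, map_pow]
  rcases le_total (v (s i)) 1 with h | h
  · exact (pow_le_one₀ (v.nonneg _) h).trans (le_max_right _ _)
  · exact (pow_le_pow_right₀ h (hd m.1 m.2 i)).trans (le_max_left _ _)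

variable [AdmissibleAbsValues K]

theorem of_local (x : K) {ι : Type} [Fintype ι] (a : ι → K) (N : ℝ)
    (h1 : ∀ v : AbsoluteValue K ℝ, max (v x) 1 ≤ N * ∏ i, max (v (a i)) 1)
    (h2 : ∀ v : AbsoluteValue K ℝ, IsNonarchimedean v → max (v x) 1 ≤ ∏ i, max (v (a i)) 1) :
    mulHeight₁ x ≤ N ^ (totalWeight K) * ∏ i, mulHeight₁ (a i) := by
  simp only [Height.mulHeight₁_eq, totalWeight]
  rw [Finset.prod_mul_distrib, ← Multiset.prod_replicate, ← Multiset.map_const,
    ← finprod_prod_comm _ _ (by fun_prop), ← Multiset.prod_map_prod, ← mul_assoc,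
    ← Multiset.prod_map_mul]
  simp only [Function.const_apply]
  gcongr
  · exact finprod_nonneg fun _ => by positivity
  · exact Multiset.prod_map_nonneg fun v _ => (le_max_of_le_right zero_le_one).trans (h1 v)
  · exact Multiset.prod_map_le_prod_map₀ _ _ (fun _ _ => by positivity) fun v _ => h1 v
  · exact finprod_le_finprod (by fun_prop) (fun _ => by positivity) (by fun_prop) fun v =>
      h2 v.val (isNonarchimedean _ v.prop)

theorem log_poly {n : ℕ} (S : Finset (Fin n →₀ ℕ)) (c : S → K) (d : Fin n → ℕ)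
    (hd : ∀ m ∈ S, ∀ i, m i ≤ d i) (s : Fin n → K) :
    logHeight₁ (∑ m : S, c m * ∏ i, s i ^ m.1 i) ≤ totalWeight K * Real.log (S.card + 1) +
      (∑ m, logHeight₁ (c m) + ∑ i, d i * logHeight₁ (s i)) := by
  have hP : ∀ v : AbsoluteValue K ℝ,
      1 ≤ (∏ m, max (v (c m)) 1) * ∏ i, max (v (s i ^ d i)) 1 := fun v =>
    one_le_mul_of_one_le_of_one_le (Finset.one_le_prod fun _ _ => le_max_right ..)
      (Finset.one_le_prod fun _ _ => le_max_right ..)
  have h := of_local (∑ m : S, c m * ∏ i, s i ^ m.1 i) (Sum.elim c fun i => s i ^ d i)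
    ((S.card : ℝ) + 1) (fun v => ?_) fun v hv => ?_
  · have hS : (0 : ℝ) < S.card + 1 := by positivity
    have h2 := Real.log_le_log (mulHeight₁_pos _) h
    rw [Real.log_mul (by positivity) (Finset.prod_ne_zero_iff.2 fun i _ => mulHeight₁_ne_zero _),
      Real.log_pow, Real.log_prod fun i _ => mulHeight₁_ne_zero _, Fintype.sum_sum_type] at h2
    simpa only [Sum.elim_inl, Sum.elim_inr, ← logHeight₁_eq_log_mulHeight₁, logHeight₁_pow]
      using h2
  · rw [Fintype.prod_sum_type]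
    simp only [Sum.elim_inl, Sum.elim_inr]
    have h1 := hP v
    have h2 := Finset.sum_le_card_nsmul Finset.univ _ _ fun m _ => loc_mono v S c d hd s m
    rw [Finset.card_univ, Fintype.card_coe, nsmul_eq_mul] at h2
    have h3 := v.sum_le Finset.univ fun m : S => c m * ∏ i, s i ^ m.1 i
    have h4 : (0 : ℝ) ≤ S.card := Nat.cast_nonneg _
    refine max_le (by linarith) (by nlinarith)
  · rw [Fintype.prod_sum_type]
    simp only [Sum.elim_inl, Sum.elim_inr]
    exact max_le (hv.apply_sum_univ_le.trans (Real.iSup_le (loc_mono v S c d hd s)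
      (zero_le_one.trans (hP v)))) (hP v)

end general

theorem h1_pow (a : Qb) (q : ℕ) : h1 (a ^ q) = q * h1 a := by
  obtain ⟨L, _, hL⟩ := exists_field (Set.toFinite ({a} : Set Qb))
  lift a to L using hL a (by simp)
  rw [← IntermediateField.coe_pow, h1_eq, h1_eq, logHeight₁_pow, mul_div_assoc]

theorem h1_poly {n : ℕ} (P : MvPolynomial (Fin n) ℚ) : ∃ C : ℝ, ∀ s : Fin n → Qb,
    h1 (MvPolynomial.aeval s P) ≤ C + ∑ i, (P.degreeOf i : ℕ) * h1 (s i) := by
  refine ⟨Real.log (P.support.card + 1) + ∑ m : P.support, h1 (algebraMap ℚ Qb (P.coeff m)),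
    fun s => ?_⟩
  obtain ⟨L, _, hL⟩ := exists_field (Set.finite_range s)
  lift s to Fin n → L using fun i => hL (s i) (by simp)
  have hp := finrank_pos' L
  have h := log_poly P.support (fun m => algebraMap ℚ L (P.coeff m)) (fun i => P.degreeOf i)
    (fun m hm i => MvPolynomial.monomial_le_degreeOf i hm) s
  rw [totalWeight_eq_finrank] at h
  have e : MvPolynomial.aeval (fun i => (s i : Qb)) P =
      ((∑ m : P.support, algebraMap ℚ L (P.coeff m) * ∏ i, s i ^ m.1 i : L) : Qb) := by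
    rw [MvPolynomial.aeval_def, MvPolynomial.eval₂_eq', ← Finset.sum_coe_sort]
    simp
  have e2 : ∀ q : ℚ, algebraMap ℚ Qb q = ((algebraMap ℚ L q : L) : Qb) := fun q => by simp
  simp only [e, e2, h1_eq, ← mul_div_assoc]
  rw [← Finset.sum_div, ← Finset.sum_div, div_le_iff₀ hp]
  field_simp
  linarith

theorem gm_surj (g : Ks) : ∃ u, gm u = g := Germ.inductionOn g fun u => ⟨u, rfl⟩

theorem gm_aeval {n : ℕ} (u : Fin n → ℕ → Qb) (P : MvPolynomial (Fin n) ℚ) :
    MvPolynomial.aeval (fun i => gm (u i)) P =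
      gm fun j => MvPolynomial.aeval (fun i => u i j) P := by
  induction P using MvPolynomial.induction_on with
  | C a =>
    simp only [MvPolynomial.aeval_C, eq_ratCast]
    exact (map_ratCast (gm.comp (Pi.constRingHom ℕ Qb)) a).symm
  | add p q hp hq =>
    simp only [map_add, hp, hq]
    exact (map_add gm _ _).symm
  | mul_X p i hp =>
    simp only [map_mul, hp, MvPolynomial.aeval_X]
    exact (map_mul gm _ _).symm

theorem ex (Λ : ℕ → ℝ) : ∃ h : Ks → ENNReal, ∀ u : ℕ → Qb,
    Tendsto (fun j => ENNReal.ofReal (h1 (u j) / Λ j)) (hyperfilter ℕ) (𝓝 (h (gm u))) := by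
  choose r hr using gm_surj
  refine ⟨fun g => ((hyperfilter ℕ).map fun j => ENNReal.ofReal (h1 (r g j) / Λ j)).lim,
    fun u => ?_⟩
  have h : Tendsto (fun j => ENNReal.ofReal (h1 (r (gm u) j) / Λ j)) (hyperfilter ℕ) _ :=
    ((hyperfilter ℕ).map fun j => ENNReal.ofReal (h1 (r (gm u) j) / Λ j)).le_nhds_lim
  refine h.congr' ?_
  filter_upwards [Germ.coe_eq.1 (hr (gm u))] with j hj
  rw [hj]

theorem key {Λ : ℕ → ℝ} (hΛ : Tendsto Λ (hyperfilter ℕ) atTop) {h : Ks → ENNReal}
    (hh : ∀ u : ℕ → Qb,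
      Tendsto (fun j => ENNReal.ofReal (h1 (u j) / Λ j)) (hyperfilter ℕ) (𝓝 (h (gm u))))
    {ι : Type} [Fintype ι] (u : ℕ → Qb) (w : ι → ℕ → Qb) (c : ι → ℕ) (C : ℝ)
    (H : ∀ᶠ j in hyperfilter ℕ, h1 (u j) ≤ C + ∑ i, c i * h1 (w i j)) :
    h (gm u) ≤ ∑ i, c i * h (gm (w i)) := by
  have t1 : Tendsto (fun j => ENNReal.ofReal (C / Λ j)) (hyperfilter ℕ) (𝓝 0) := by
    simpa only [ENNReal.ofReal_zero] using ENNReal.tendsto_ofReal (tendsto_const_nhds.div_atTop hΛ)
  have t2 := t1.add (tendsto_finsetSum Finset.univ fun i _ =>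
    ENNReal.Tendsto.const_mul (hh (w i)) (Or.inr (ENNReal.natCast_ne_top (c i))))
  rw [zero_add] at t2
  refine le_of_tendsto_of_tendsto (hh u) t2 ?_
  filter_upwards [H, hΛ.eventually_gt_atTop 0] with j hj h0
  have e : ∑ i, (c i : ENNReal) * ENNReal.ofReal (h1 (w i j) / Λ j) =
      ENNReal.ofReal (∑ i, c i * (h1 (w i j) / Λ j)) := by
    rw [ENNReal.ofReal_sum_of_nonneg fun i _ =>
      mul_nonneg (Nat.cast_nonneg _) (div_nonneg (h1_nonneg _) h0.le)]
    exact Finset.sum_congr rfl fun i _ => by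
      rw [ENNReal.ofReal_mul (Nat.cast_nonneg _), ENNReal.ofReal_natCast]
  rw [e]
  refine (ENNReal.ofReal_le_ofReal ?_).trans ENNReal.ofReal_add_le
  simp only [← mul_div_assoc]
  rw [← Finset.sum_div, ← add_div]
  gcongr

end Hgx

open Hgx in
theorem hgt : StmtHGT := by
  intro Λ hΛ
  obtain ⟨h, hh⟩ := ex Λ
  refine ⟨h, ⟨fun a b => ?_, fun a => ?_, fun a q => ?_, fun n P s => ?_, fun n a r hn hr => ?_⟩,
    fun u c H => ?_, fun u c H => ?_⟩
  · obtain ⟨a, rfl⟩ := gm_surj a
    obtain ⟨b, rfl⟩ := gm_surj b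
    have := key hΛ hh (a * b) ![a, b] (fun _ => 1) 0 (Eventually.of_forall fun j => by
      simpa using h1_mul (a j) (b j))
    simpa using this
  · obtain ⟨a, rfl⟩ := gm_surj a
    rw [← gm_inv]
    refine tendsto_nhds_unique (hh _) ?_
    simpa only [Pi.inv_apply, h1_inv] using hh a
  · obtain ⟨a, rfl⟩ := gm_surj a
    rw [← map_pow]
    refine tendsto_nhds_unique (hh _) ((ENNReal.Tendsto.const_mul (hh a)
      (Or.inr (ENNReal.natCast_ne_top q))).congr fun j => ?_)
    rw [Pi.pow_apply, h1_pow, mul_div_assoc, ENNReal.ofReal_mul (Nat.cast_nonneg _),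
      ENNReal.ofReal_natCast]
  · choose u hu using fun i => gm_surj (s i)
    obtain rfl : s = fun i => gm (u i) := funext fun i => (hu i).symm
    obtain ⟨C, hC⟩ := h1_poly P
    rw [gm_aeval]
    exact key hΛ hh _ u _ C (Eventually.of_forall fun j => hC _)
  · choose u hu using fun i => gm_surj (a i)
    obtain rfl : a = fun i => gm (u i) := funext fun i => (hu i).symm
    obtain ⟨r, rfl⟩ := gm_surj r
    have e : gm (r ^ n + ∑ i, u i * r ^ (i : ℕ)) = 0 := by
      simpa only [map_add, map_pow, map_sum, map_mul] using hr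
    have := key hΛ hh r u (fun _ => 1) (Real.log n) ((gm_eq_zero.1 e).mono fun j hj => by
      simpa using h1_root hn (fun i => u i j) (r j) (by simpa using hj))
    simpa using this
  · refine le_of_tendsto (hh u) ?_
    filter_upwards [H, hΛ.eventually_gt_atTop 0] with j hj h0
    exact ENNReal.ofReal_le_ofReal ((div_le_iff₀ h0).2 hj)
  · refine ge_of_tendsto (hh u) ?_
    filter_upwards [H, hΛ.eventually_gt_atTop 0] with j hj h0
    exact ENNReal.ofReal_le_ofReal ((le_div_iff₀ h0).2 hj)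

end

end Pool.Agent.MP_8d06cc_nt.AB
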