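import Pool.Agent.MP_216eb3_nt.H66.Abs

/-! The height of the value of a polynomial, with the degrees in each variable as constants. -/

set_option autoImplicit false

namespace Pool.Agent.MP_8d06cc_nt.HGT

open Height NumberField Height.AdmissibleAbsValues
open Pool.Agent.MP_216eb3_nt.H66

section general

variable {K : Type} [Field K] [AdmissibleAbsValues K]

theorem glob {J : Type} [Fintype J] (r : K) (z : J → K) (c : ℝ) (hc : 0 < c)
    (h1 : ∀ v : AbsoluteValue K ℝ, max (v r) 1 ≤ c * ∏ j, max (v (z j)) 1)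
    (h2 : ∀ v : AbsoluteValue K ℝ, IsNonarchimedean v → max (v r) 1 ≤ ∏ j, max (v (z j)) 1) :
    logHeight₁ r ≤ totalWeight K * Real.log c + ∑ j, logHeight₁ (z j) := by
  simp only [logHeight₁_eq_log_mulHeight₁]
  rw [← Real.log_prod fun i _ => mulHeight₁_ne_zero _, ← Real.log_pow,
    ← Real.log_mul (by positivity) (Finset.prod_ne_zero_iff.2 fun i _ => mulHeight₁_ne_zero _)]
  refine Real.log_le_log (mulHeight₁_pos _) ?_
  simp only [Height.mulHeight₁_eq, totalWeight]
  rw [Finset.prod_mul_distrib, ← Multiset.prod_replicate, ← Multiset.map_const,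
    ← finprod_prod_comm _ _ (by fun_prop), ← Multiset.prod_map_prod, ← mul_assoc,
    ← Multiset.prod_map_mul]
  simp only [Function.const_apply]
  gcongr
  · exact finprod_nonneg fun _ => by positivity
  · exact Multiset.prod_map_nonneg fun _ h => by positivity
  · exact Multiset.prod_map_le_prod_map₀ _ _ (fun _ _ => by positivity) fun v _ => h1 v
  · exact finprod_le_finprod (by fun_prop) (fun _ => by positivity) (by fun_prop) fun v =>
      h2 v.val (isNonarchimedean _ v.prop)

omit [AdmissibleAbsValues K] in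
theorem term_le (v : AbsoluteValue K ℝ) {S : Type} [Fintype S] {n : ℕ} (a : S → K)
    (m : S → Fin n → ℕ) (d : Fin n → ℕ) (hd : ∀ u i, m u i ≤ d i) (s : Fin n → K) (u : S) :
    v (a u * ∏ i, s i ^ m u i) ≤
      ∏ j : S ⊕ Fin n, max (v (Sum.elim a (fun i => s i ^ d i) j)) 1 := by
  rw [Fintype.prod_sum_type, map_mul, map_prod]
  refine mul_le_mul (Finset.le_prod_max_one (Finset.mem_univ u) fun u => v (a u))
    (Finset.prod_le_prod (fun i _ => v.nonneg _) fun i _ => ?_)
    (Finset.prod_nonneg fun i _ => v.nonneg _) (Finset.prod_nonneg fun i _ => by positivity)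
  simp only [Sum.elim_inr, map_pow]
  rcases le_total (v (s i)) 1 with h | h
  · exact (pow_le_one₀ (v.nonneg _) h).trans (le_max_right _ _)
  · exact (pow_le_pow_right₀ h (hd u i)).trans (le_max_left _ _)

theorem logHeight₁_poly {S : Type} [Fintype S] {n : ℕ} (a : S → K)
    (m : S → Fin n → ℕ) (d : Fin n → ℕ) (hd : ∀ u i, m u i ≤ d i) (s : Fin n → K) :
    logHeight₁ (∑ u, a u * ∏ i, s i ^ m u i) ≤
      totalWeight K * Real.log (Fintype.card S + 1) + ∑ u, logHeight₁ (a u)
        + ∑ i, d i * logHeight₁ (s i) := by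
  have hP : ∀ v : AbsoluteValue K ℝ,
      1 ≤ ∏ j : S ⊕ Fin n, max (v (Sum.elim a (fun i => s i ^ d i) j)) 1 := fun v =>
    Finset.one_le_prod fun _ _ => le_max_right ..
  have := glob (∑ u, a u * ∏ i, s i ^ m u i) (Sum.elim a fun i => s i ^ d i)
    (Fintype.card S + 1) (by positivity) (fun v => by
      have h1 := (v.sum_le _ _).trans (Finset.sum_le_card_nsmul Finset.univ _ _
        fun u _ => term_le v a m d hd s u)
      rw [nsmul_eq_mul, Finset.card_univ] at h1
      have h2 := hP v
      have h3 : (0 : ℝ) ≤ Fintype.card S := Nat.cast_nonneg _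
      exact max_le (by nlinarith) (by nlinarith)) fun v hv => by
      refine max_le ?_ (hP v)
      rcases isEmpty_or_nonempty S with h | h
      · rw [Fintype.sum_empty, map_zero]; exact zero_le_one.trans (hP v)
      · exact hv.apply_sum_univ_le.trans (ciSup_le fun u => term_le v a m d hd s u)
  simpa only [Fintype.sum_sum_type, Sum.elim_inl, Sum.elim_inr, logHeight₁_pow, add_assoc]
    using this

end general

theorem h1_pow (a : Qb) (q : ℕ) : h1 (a ^ q) = q * h1 a := by
  obtain ⟨L, _, hL⟩ := exists_field (Set.toFinite ({a} : Set Qb))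
  lift a to L using hL a (by simp)
  rw [← IntermediateField.coe_pow, h1_eq, h1_eq, logHeight₁_pow, mul_div_assoc]

theorem h1_poly (n : ℕ) (P : MvPolynomial (Fin n) ℚ) : ∃ C : ℝ, ∀ s : Fin n → Qb,
    h1 (MvPolynomial.aeval s P) ≤ ∑ i, P.degreeOf i * h1 (s i) + C := by
  refine ⟨Real.log (Fintype.card P.support + 1) +
    ∑ u : P.support, h1 (algebraMap ℚ Qb (P.coeff u)), fun s => ?_⟩
  obtain ⟨L, _, hL⟩ := exists_field (Set.finite_range s)
  lift s to Fin n → L using fun i => hL (s i) (by simp)
  have hp := finrank_pos' L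
  have h := logHeight₁_poly (fun u : P.support => algebraMap ℚ L (P.coeff u))
    (fun u i => u.1 i) P.degreeOf (fun u i => MvPolynomial.monomial_le_degreeOf i u.2) s
  have e : MvPolynomial.aeval (fun i => (s i : Qb)) P =
      ((∑ u : P.support, algebraMap ℚ L (P.coeff u) * ∏ i, s i ^ u.1 i : L) : Qb) := by
    rw [MvPolynomial.aeval_def, MvPolynomial.eval₂_eq', ← Finset.sum_coe_sort]
    simp
  have e' : ∀ q : ℚ, algebraMap ℚ Qb q = ((algebraMap ℚ L q : L) : Qb) := fun q => by simp
  rw [totalWeight_eq_finrank] at h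
  simp only [e, e', h1_eq, ← mul_div_assoc]
  rw [← Finset.sum_div, ← Finset.sum_div, div_le_iff₀ hp]
  field_simp
  linarith

end Pool.Agent.MP_8d06cc_nt.HGT
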